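import Pool.Agent.Helper44.KS.GoalsD

/-!
# Packet KS-TRL: translation invariance of the types
-/

namespace Pool.Agent.Helper99.KS

open MeasureTheory Filter Topology Set Pool.Agent.Helper44.KS
open scoped ENNReal ContDiff

theorem prod_bd {r : ℕ} (w : Fin r → ℝ) (R : ℝ) (hw : ∀ i, |w i| ≤ R) (l : List (Fin r)) :
    |(l.map w).prod| ≤ R ^ l.length := by
  induction l with
  | nil => simp
  | cons i l ih =>
    rw [List.map_cons, List.prod_cons, abs_mul, List.length_cons, pow_succ']
    exact mul_le_mul (hw i) ih (abs_nonneg _) (le_trans (abs_nonneg _) (hw i))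

/-- Uniform bound for the sums. -/
theorem sum_bd (h4 : S_TCT) {r : ℕ} (T : TSeq r) (g : ℝ → ℝ) (hg : Continuous g)
    (hgc : HasCompactSupport g) (l : List (Fin r)) :
    ∃ B : ℝ, ∀ N (u : ℝ), |(∑ p ∈ T.P N, g (T.a N p - u) * (l.map (T.w N p)).prod) / T.S N| ≤ B := by
  classical
  obtain ⟨C, hC⟩ := hg.bounded_above_of_compact_support hgc
  obtain ⟨D, hD⟩ := hgc.isCompact.isBounded.subset_closedBall 0
  have hC0 : 0 ≤ C := le_trans (norm_nonneg _) (hC 0)
  have hsupp : ∀ y : ℝ, |D| < |y| → g y = 0 := by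
    intro y hy
    by_contra h
    have h1 : y ∈ tsupport g := subset_tsupport _ h
    have h2 := hD h1
    rw [mem_closedBall_zero_iff, Real.norm_eq_abs] at h2
    exact absurd (lt_of_lt_of_le hy h2) (not_lt.2 (le_abs_self D))
  refine ⟨C * T.R ^ l.length * (15 * (2 * |D| + 2 * T.τ * T.R + 2)), fun N u => ?_⟩
  have hS := T.S_pos N
  rw [abs_div, abs_of_pos hS, div_le_iff₀ hS]
  have hR : 0 ≤ T.R ^ l.length := pow_nonneg T.R_pos.le _
  have hcount := h4 r T N 0 (u - |D|) (u + |D|) (by simpa using T.τ_pos.le)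
    (by linarith [abs_nonneg D])
  have hz : ∀ p, ∑ i, (0 : Fin r → ℝ) i * T.w N p i = 0 := fun p => by simp
  simp only [hz, add_zero] at hcount
  calc |∑ p ∈ T.P N, g (T.a N p - u) * (l.map (T.w N p)).prod|
      ≤ ∑ p ∈ T.P N, |g (T.a N p - u) * (l.map (T.w N p)).prod| := Finset.abs_sum_le_sum_abs _ _
    _ ≤ ∑ p ∈ (T.P N).filter (fun p => u - |D| ≤ T.a N p ∧ T.a N p ≤ u + |D|),
          C * T.R ^ l.length := by
        rw [Finset.sum_filter]
        refine Finset.sum_le_sum fun p hp => ?_
        split_ifs with h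
        · rw [abs_mul]
          refine mul_le_mul ?_ (prod_bd _ _ (T.bd N p hp) l) (abs_nonneg _) hC0
          rw [← Real.norm_eq_abs]
          exact hC _
        · rw [hsupp, zero_mul, abs_zero]
          by_contra h1
          rw [not_lt, abs_le] at h1
          exact h ⟨by linarith [h1.1], by linarith [h1.2]⟩
    _ = (((T.P N).filter (fun p => u - |D| ≤ T.a N p ∧ T.a N p ≤ u + |D|)).card : ℝ) *
          (C * T.R ^ l.length) := by rw [Finset.sum_const, nsmul_eq_mul]
    _ ≤ (15 * (u + |D| - (u - |D|) + 2 * T.τ * T.R + 2) * T.S N) * (C * T.R ^ l.length) :=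
        mul_le_mul_of_nonneg_right hcount (mul_nonneg hC0 hR)
    _ = C * T.R ^ l.length * (15 * (2 * |D| + 2 * T.τ * T.R + 2)) * T.S N := by ring

/-- The claim for monomials. -/
theorem mono (h1 : S_HJ) (h2 : S_JLD) (h3 : S_BSQ) (h4 : S_TCT) {r : ℕ} (T : TSeq r) (g : ℝ → ℝ)
    (hg : ContDiff ℝ ∞ g) (hgc : HasCompactSupport g) (s : ℝ) (l : List (Fin r)) :
    Tendsto (fun N => (∑ p ∈ T.P N, (g (T.a N p - s) - g (T.a N p)) *
      (l.map (T.w N p)).prod) / T.S N) atTop (𝓝 0) := by
  have hz : ∀ N p, ∑ i, (0 : Fin r → ℝ) i * T.w N p i = 0 := fun N p => by simp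
  have hzτ : ∑ i, |(0 : Fin r → ℝ) i| < T.τ := by simpa using T.τ_pos
  have hshift : ∀ (f : ℝ → ℝ) (u : ℝ), ContDiff ℝ ∞ f → HasCompactSupport f →
      ContDiff ℝ ∞ (fun y => f (y - u)) ∧ HasCompactSupport (fun y => f (y - u)) := by
    intro f u hf hfc
    refine ⟨hf.comp (contDiff_id.sub contDiff_const), ?_⟩
    exact hfc.comp_homeomorph (Homeomorph.subRight u)
  by_cases hl : l = []
  · subst hl
    have e1 := T.fill 0 hzτ.le (fun y => g (y - s)) (hshift g s hg hgc).1 (hshift g s hg hgc).2
    have e2 := T.fill 0 hzτ.le g hg hgc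
    have e3 := e1.sub e2
    rw [integral_sub_right_eq_self g s, sub_self] at e3
    refine e3.congr fun N => ?_
    simp only [hz, add_zero, List.map_nil, List.prod_nil, mul_one]
    rw [← sub_div, ← Finset.sum_sub_distrib]
  · have hj : 1 ≤ l.length := List.length_pos_iff.2 hl
    obtain ⟨G, hG, hGc, hGj⟩ := h2 g hg hgc s l.length
    obtain ⟨B, hB⟩ := sum_bd h4 T g hg.continuous hgc l
    have key := h3 l.length (fun N i => (∑ p ∈ T.P N, g (T.a N p - (i : ℝ) * s) *
      (l.map (T.w N p)).prod) / T.S N) B hj (fun N i => hB N _) (by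
        intro i
        have e1 := h1 r T l 0 hzτ (fun y => G (y - (i : ℝ) * s)) (hshift G _ hG hGc).1
          (hshift G _ hG hGc).2
        rw [if_neg hl] at e1
        refine e1.congr fun N => ?_
        simp only [hz, add_zero]
        have e2 : ∀ y, iteratedDeriv l.length (fun y => G (y - (i : ℝ) * s)) y =
            ∑ m ∈ Finset.range (l.length + 1), (-1 : ℝ) ^ m * (l.length.choose m : ℝ) *
              g (y - ((i + m : ℕ) : ℝ) * s) := by
          intro y
          rw [iteratedDeriv_comp_sub_const]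
          change iteratedDeriv l.length G (y - (i : ℝ) * s) = _
          rw [hGj]
          refine Finset.sum_congr rfl fun m _ => ?_
          congr 2
          push_cast
          ring
        simp only [e2]
        rw [Finset.sum_div]
        simp only [Finset.sum_mul, Finset.sum_div, Finset.mul_sum]
        rw [Finset.sum_comm]
        refine Finset.sum_congr rfl fun m _ => Finset.sum_congr rfl fun p _ => ?_
        ring)
    refine key.congr fun N => ?_
    simp only [Nat.cast_one, one_mul, Nat.cast_zero, zero_mul, sub_zero]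
    rw [← sub_div, ← Finset.sum_sub_distrib]
    congr 1
    refine Finset.sum_congr rfl fun p _ => ?_
    ring

/-- Packet KS-TRL. -/
theorem trl (h1 : S_HJ) (h2 : S_JLD) (h3 : S_BSQ) (h4 : S_TCT) : S_TRL := by
  intro r T g hg hgc s Q
  have key : ∀ (Q : MvPolynomial (Fin r) ℝ) (l : List (Fin r)),
      Tendsto (fun N => (∑ p ∈ T.P N, (g (T.a N p - s) - g (T.a N p)) *
        ((l.map (T.w N p)).prod * MvPolynomial.eval (T.w N p) Q)) / T.S N) atTop (𝓝 0) := by
    intro Q
    induction Q using MvPolynomial.induction_on with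
    | C a =>
      intro l
      have e1 := (mono h1 h2 h3 h4 T g hg hgc s l).mul_const a
      rw [zero_mul] at e1
      refine e1.congr fun N => ?_
      simp only [MvPolynomial.eval_C]
      rw [div_mul_eq_mul_div, Finset.sum_mul]
      congr 1
      refine Finset.sum_congr rfl fun p _ => ?_
      ring
    | add P Q hP hQ =>
      intro l
      have e1 := (hP l).add (hQ l)
      rw [add_zero] at e1
      refine e1.congr fun N => ?_
      simp only [MvPolynomial.eval_add]
      rw [← add_div, ← Finset.sum_add_distrib]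
      congr 1
      refine Finset.sum_congr rfl fun p _ => ?_
      ring
    | mul_X P i hP =>
      intro l
      refine (hP (i :: l)).congr fun N => ?_
      congr 1
      refine Finset.sum_congr rfl fun p _ => ?_
      rw [MvPolynomial.eval_mul, MvPolynomial.eval_X, List.map_cons, List.prod_cons]
      ring
  refine (key Q []).congr fun N => ?_
  simp only [List.map_nil, List.prod_nil, one_mul]

end Pool.Agent.Helper99.KS
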